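import Pool.Agent.GT.StmtsB

/-!
# Squad GT, row B_STP (helper10): one step of the strong linear forms argument
-/

namespace Pool.Agent.GT.H10

open Finset

/-- the product over the cube with one more coordinate -/
theorem prod_cube_insert {K : ℕ} {L : Finset (Fin K)} {j : Fin K} (hj : j ∉ L)
    (H : (Fin K → Bool) → ℝ) : ∏ ω ∈ cube (insert j L), H ω =
      (∏ ω ∈ cube L, H ω) * ∏ ω ∈ cube L, H (Function.update ω j true) := by
  have hf : ∀ ω ∈ cube L, ω j = false := by
    intro ω hω
    by_contra h
    exact hj (mem_cube.1 hω j (by simpa using h))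
  have e1 : cube (insert j L) = cube L ∪ (cube L).image (fun ω => Function.update ω j true) := by
    ext ω
    simp only [mem_union, mem_image, mem_cube]
    constructor
    · intro h
      by_cases hω : ω j = true
      · right
        refine ⟨Function.update ω j false, fun i hi => ?_, ?_⟩
        · by_cases hij : i = j
          · subst hij
            simp at hi
          · rw [Function.update_of_ne hij] at hi
            exact (Finset.mem_insert.1 (h i hi)).resolve_left hij
        · rw [Function.update_idem, ← hω, Function.update_eq_self]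
      · left
        intro i hi
        rcases Finset.mem_insert.1 (h i hi) with h1 | h1
        · subst h1
          exact absurd hi hω
        · exact h1
    · rintro (h | ⟨ω', h, rfl⟩) i hi
      · exact Finset.mem_insert_of_mem (h i hi)
      · by_cases hij : i = j
        · rw [hij]
          exact Finset.mem_insert_self _ _
        · rw [Function.update_of_ne hij] at hi
          exact Finset.mem_insert_of_mem (h i hi)
  have e2 : Disjoint (cube L) ((cube L).image (fun ω => Function.update ω j true)) := by
    rw [Finset.disjoint_left]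
    intro ω h1 h2
    obtain ⟨ω', -, rfl⟩ := Finset.mem_image.1 h2
    have := hf _ h1
    simp at this
  rw [e1, Finset.prod_union e2, Finset.prod_image]
  intro ω h1 ω' h2 h
  have h3 := congrArg (fun z => Function.update z j false) h
  dsimp only at h3
  rw [Function.update_idem, Function.update_idem] at h3
  have h4 := Function.update_eq_self j ω
  have h5 := Function.update_eq_self j ω'
  rw [hf _ h1] at h4
  rw [hf _ h2] at h5
  rw [← h4, ← h5, h3]

theorem mix_upd {K : ℕ} {X : Type} (ω : Fin K → Bool) (x y : Fin K → X) (j : Fin K)
    (h : ω j = false) :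
    mix ω (Function.update x j (y j)) y = mix (Function.update ω j true) x y := by
  funext i
  unfold mix
  by_cases hi : i = j
  · subst hi
    simp [h]
  · simp [Function.update_of_ne hi]

theorem mix_upr {K : ℕ} {X : Type} (ω : Fin K → Bool) (x y : Fin K → X) (j : Fin K) (s : X)
    (h : ω j = false) : mix ω x (Function.update y j s) = mix ω x y := by
  funext i
  unfold mix
  by_cases hi : i = j
  · subst hi
    simp [h]
  · simp [Function.update_of_ne hi]

theorem b_stp (hC : CswStmt) : StpStmt := by
  intro K X _ _ ε μ a F p P J j hμ hH hP hp hpP hja hjJ haJ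
  classical
  have hf : ∀ L : Finset (Fin K), j ∉ L → ∀ ω ∈ cube L, ω j = false := by
    intro L hL ω hω
    by_contra h
    exact hL (mem_cube.1 hω j (by simpa using h))
  have hL1 : j ∉ insert a J := by
    rw [Finset.mem_insert]
    exact fun h => h.elim hja hjJ
  have hL2 : ∀ i, j ∉ insert a (J.erase i) := by
    intro i
    rw [Finset.mem_insert]
    exact fun h => h.elim hja fun h => hjJ (Finset.mem_of_mem_erase h)
  set T : (Fin K → X) × (Fin K → X) → ℝ := fun z =>
    ∏ ω ∈ cube (insert a J), p j (ω a) (mix ω z.1 z.2) with hT
  set V : (Fin K → X) × (Fin K → X) → ℝ := fun z =>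
    ∏ ω ∈ cube (insert a J), P j (ω a) (mix ω z.1 z.2) with hV
  set R : (Fin K → X) × (Fin K → X) → ℝ := fun z =>
    (∏ ω ∈ cube J, F (mix ω z.1 z.2)) *
    (∏ i ∈ J, ∏ ω ∈ cube (insert a (J.erase i)), P i (ω a) (mix ω z.1 z.2)) *
    (∏ i ∈ ((univ.erase a) \ J).erase j, ∏ ω ∈ cube (insert a J), p i (ω a) (mix ω z.1 z.2))
    with hR
  have hPi : ∀ b, Ind j (P j b) := by
    intro b x s
    rcases hP j b with h | h
    · rw [h]
      exact hμ j x s
    · rw [h]
  have hcs := hC K X j T V R ?_ ?_ ?_ ?_ ?_
  · obtain ⟨h0, h1⟩ := hcs
    have e1 : EJ a F p P J = av (fun z => T z * R z) := by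
      unfold EJ
      congr 1
      funext z
      have hm : j ∈ (univ.erase a) \ J := by
        rw [Finset.mem_sdiff, Finset.mem_erase]
        exact ⟨⟨hja, Finset.mem_univ _⟩, hjJ⟩
      rw [← Finset.mul_prod_erase _ _ hm]
      simp only [hT, hR]
      ring
    have e2 : EJ a F p P (insert j J) =
        av (fun z => V z * (R z * R (Function.update z.1 j (z.2 j), z.2))) := by
      unfold EJ
      congr 1
      funext z
      have hjJ' : (insert j J).erase j = J := Finset.erase_insert hjJ
      have hs : univ.erase a \ insert j J = ((univ.erase a) \ J).erase j := by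
        ext i
        simp only [Finset.mem_sdiff, Finset.mem_erase, Finset.mem_insert, Finset.mem_univ]
        tauto
      have ha : ∀ ω : Fin K → Bool, Function.update ω j true a = ω a := fun ω =>
        Function.update_of_ne (Ne.symm hja) _ _
      have g1 : ∏ ω ∈ cube (insert j J), F (mix ω z.1 z.2) =
          (∏ ω ∈ cube J, F (mix ω z.1 z.2)) *
            ∏ ω ∈ cube J, F (mix ω (Function.update z.1 j (z.2 j)) z.2) := by
        rw [prod_cube_insert hjJ]
        congr 1
        exact Finset.prod_congr rfl fun ω hω => by rw [mix_upd ω _ _ j (hf _ hjJ ω hω)]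
      have g2 : ∀ i ∈ J, ∏ ω ∈ cube (insert a ((insert j J).erase i)),
          P i (ω a) (mix ω z.1 z.2) =
          (∏ ω ∈ cube (insert a (J.erase i)), P i (ω a) (mix ω z.1 z.2)) *
            ∏ ω ∈ cube (insert a (J.erase i)),
              P i (ω a) (mix ω (Function.update z.1 j (z.2 j)) z.2) := by
        intro i hi
        have hij : j ≠ i := fun h => hjJ (h ▸ hi)
        rw [Finset.erase_insert_of_ne hij, Finset.insert_comm, prod_cube_insert (hL2 i)]
        congr 1
        exact Finset.prod_congr rfl fun ω hω => by
          rw [mix_upd ω _ _ j (hf _ (hL2 i) ω hω), ha]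
      have g3 : ∀ i, ∏ ω ∈ cube (insert a (insert j J)), p i (ω a) (mix ω z.1 z.2) =
          (∏ ω ∈ cube (insert a J), p i (ω a) (mix ω z.1 z.2)) *
            ∏ ω ∈ cube (insert a J),
              p i (ω a) (mix ω (Function.update z.1 j (z.2 j)) z.2) := by
        intro i
        rw [Finset.insert_comm, prod_cube_insert hL1]
        congr 1
        exact Finset.prod_congr rfl fun ω hω => by
          rw [mix_upd ω _ _ j (hf _ hL1 ω hω), ha]
      rw [g1, Finset.prod_insert hjJ, hjJ', Finset.prod_congr rfl g2, hs,
        Finset.prod_congr rfl (fun i _ => g3 i), Finset.prod_mul_distrib, Finset.prod_mul_distrib]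
      simp only [hV, hR]
      ring
    have e3 : av V ≤ 1 + ε := by
      have h2 := hH (((cube (insert a J)).filter fun ω => P j (ω a) = μ j).image
        fun ω => (j, ω)) (by
          intro q hq
          obtain ⟨ω, hω, rfl⟩ := Finset.mem_image.1 hq
          exact hf _ hL1 ω (Finset.mem_filter.1 hω).1)
      have h3 : (fun z : (Fin K → X) × (Fin K → X) =>
          ∏ q ∈ ((cube (insert a J)).filter fun ω => P j (ω a) = μ j).image
            (fun ω => (j, ω)), μ q.1 (mix q.2 z.1 z.2)) = V := by
        funext z
        rw [Finset.prod_image (fun ω _ ω' _ h => (Prod.mk.inj h).2)]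
        simp only [hV]
        rw [← Finset.prod_filter_of_ne (p := fun ω => P j (ω a) = μ j)
          (s := cube (insert a J)) (f := fun ω => P j (ω a) (mix ω z.1 z.2))]
        · refine Finset.prod_congr rfl fun ω hω => ?_
          rw [(Finset.mem_filter.1 hω).2]
        · intro ω _ hne
          rcases hP j (ω a) with h | h
          · exact h
          · exact absurd (by rw [h]) hne
      rw [h3] at h2
      have := (abs_le.1 h2).2
      linarith
    rw [e1, e2]
    exact h1.trans (mul_le_mul_of_nonneg_right e3 h0)
  · intro z
    simp only [hT, hV]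
    rw [Finset.abs_prod]
    exact Finset.prod_le_prod (fun _ _ => abs_nonneg _) fun ω _ => hpP j (ω a) _
  · intro x y s
    simp only [hT]
    refine Finset.prod_congr rfl fun ω hω => ?_
    rw [mix_update_left ω x y j s (hf _ hL1 ω hω)]
    exact hp j (ω a) _ s
  · intro x y s
    simp only [hV]
    refine Finset.prod_congr rfl fun ω hω => ?_
    rw [mix_update_left ω x y j s (hf _ hL1 ω hω)]
    exact hPi (ω a) _ s
  · intro x y s
    simp only [hV]
    refine Finset.prod_congr rfl fun ω hω => ?_
    rw [mix_upr ω x y j s (hf _ hL1 ω hω)]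
  · intro x y s
    simp only [hR]
    congr 1
    · congr 1
      · exact Finset.prod_congr rfl fun ω hω => by rw [mix_upr ω x y j s (hf _ hjJ ω hω)]
      · exact Finset.prod_congr rfl fun i _ => Finset.prod_congr rfl fun ω hω => by
          rw [mix_upr ω x y j s (hf _ (hL2 i) ω hω)]
    · exact Finset.prod_congr rfl fun i _ => Finset.prod_congr rfl fun ω hω => by
        rw [mix_upr ω x y j s (hf _ hL1 ω hω)]

end Pool.Agent.GT.H10
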