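import Pool.Agent.GT.StmtsC

/-!
# Squad GT, row C_BRB (helper10): the trivial bound
-/

open Finset

namespace Pool.Agent.GT.H10

theorem c_brb (hLam : LamStmt) (hLvc : LvcStmt) : BrbStmt := by
  intro σ _ _ P R X hP hR hX
  obtain ⟨h1, h2, h3⟩ := hLvc P R hP hR
  obtain ⟨-, l2, l3⟩ := hLam P R hP hR
  have hs : ∑ a ∈ P.powerset, |lam P R a| ≤ R := by
    have e : ∑ a ∈ P.powerset, |lam P R a| = ∑ a ∈ lv P R, |lam P R a| := by
      unfold lv
      rw [Finset.sum_filter_of_ne]
      intro a _ ha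
      by_contra h
      exact ha (by rw [l3 a (not_lt.1 h), abs_zero])
    rw [e]
    calc ∑ a ∈ lv P R, |lam P R a| ≤ ∑ a ∈ lv P R, (1 : ℝ) :=
          Finset.sum_le_sum fun a ha =>
            l2 a (Finset.mem_powerset.1 (Finset.mem_filter.1 ha).1)
      _ = ((lv P R).card : ℝ) := by rw [Finset.sum_const, nsmul_eq_mul, mul_one]
      _ ≤ R := by exact_mod_cast h1
  have hs0 : 0 ≤ ∑ a ∈ P.powerset, |lam P R a| := Finset.sum_nonneg fun _ _ => abs_nonneg _
  have hpi : ∑ A ∈ Fintype.piFinset (fun _ : σ => P.powerset), ∏ s, |lam P R (A s)| =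
      (∑ a ∈ P.powerset, |lam P R a|) ^ Fintype.card σ := by
    have h := Finset.prod_univ_sum (fun _ : σ => P.powerset) (fun _ a => |lam P R a|)
    rw [Finset.prod_const, Finset.card_univ] at h
    exact h.symm
  have key : |∑ A ∈ Fintype.piFinset (fun _ : σ => P.powerset),
      ∑ B ∈ Fintype.piFinset (fun _ : σ => P.powerset),
        (∏ s, lam P R (A s) * lam P R (B s)) * X A B| ≤
      (R : ℝ) ^ Fintype.card σ * (R : ℝ) ^ Fintype.card σ := by
    calc _ ≤ ∑ A ∈ Fintype.piFinset (fun _ : σ => P.powerset),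
          ∑ B ∈ Fintype.piFinset (fun _ : σ => P.powerset),
            (∏ s, |lam P R (A s)|) * ∏ s, |lam P R (B s)| := by
          refine (Finset.abs_sum_le_sum_abs _ _).trans (Finset.sum_le_sum fun A _ =>
            (Finset.abs_sum_le_sum_abs _ _).trans (Finset.sum_le_sum fun B _ => ?_))
          rw [abs_mul, Finset.abs_prod, ← Finset.prod_mul_distrib]
          simp only [abs_mul]
          exact mul_le_of_le_one_right (Finset.prod_nonneg fun s _ =>
            mul_nonneg (abs_nonneg _) (abs_nonneg _)) (hX A B)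
      _ = (∑ a ∈ P.powerset, |lam P R a|) ^ Fintype.card σ *
            (∑ a ∈ P.powerset, |lam P R a|) ^ Fintype.card σ := by
          rw [← hpi, Finset.sum_mul_sum]
      _ ≤ (R : ℝ) ^ Fintype.card σ * (R : ℝ) ^ Fintype.card σ :=
          mul_le_mul (pow_le_pow_left₀ hs0 hs _) (pow_le_pow_left₀ hs0 hs _)
            (pow_nonneg hs0 _) (by positivity)
  unfold brk
  rw [abs_mul, abs_of_nonneg (pow_nonneg (zero_le_one.trans h2) _)]
  calc GG P R ^ Fintype.card σ * _ ≤ (R : ℝ) ^ Fintype.card σ *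
        ((R : ℝ) ^ Fintype.card σ * (R : ℝ) ^ Fintype.card σ) :=
        mul_le_mul (pow_le_pow_left₀ (zero_le_one.trans h2) h3 _) key (abs_nonneg _)
          (by positivity)
    _ = (R : ℝ) ^ (3 * Fintype.card σ) := by ring

end Pool.Agent.GT.H10
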