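import Pool.Agent.GT.StmtsD

/-!
# Squad GT, row D_VAL (helper10): values
-/

set_option autoImplicit false

namespace Pool.Agent.GT.D.H10

open Pool.Agent.GT.D

theorem pv0 (p : ℕ) (n : ℤ) (hn : ¬ (p : ℤ) ∣ n) : padicValInt p n = 0 := by
  unfold padicValInt
  exact padicValNat.eq_zero_of_not_dvd fun h => hn (Int.natCast_dvd.2 h)

theorem un_of (p : ℕ) (n : ℤ) (hn : ¬ (p : ℤ) ∣ n) : un p n = n := by
  unfold un
  rw [pv0 p n hn, pow_zero, Int.ediv_one]

theorem pvp (p : ℕ) (hp : p.Prime) : padicValInt p (p : ℤ) = 1 := by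
  have := Fact.mk hp
  unfold padicValInt
  rw [Int.natAbs_natCast]
  exact padicValNat_self

theorem un_self (p : ℕ) (hp : p.Prime) : un p (p : ℤ) = 1 := by
  unfold un
  rw [pvp p hp, pow_one]
  exact Int.ediv_self (by exact_mod_cast hp.ne_zero)

theorem d_val : ValStmt := by
  refine ⟨?_, ?_, ?_, ?_, ?_, ?_, ?_, ?_, ?_, ?_⟩
  · intro p n _ hn
    refine ⟨?_, un_of p n hn⟩
    unfold vl
    rw [pv0 p n hn, Nat.cast_zero]
  · intro p hp
    refine ⟨?_, un_self p hp⟩
    unfold vl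
    rw [pvp p hp, Nat.cast_one]
  · intro p n _ _ hn
    unfold ul
    rw [un_of p n hn]
    exact ⟨fun h => if_pos h, fun h => if_neg h⟩
  · intro p hp _
    unfold ul
    rw [un_self p hp]
    exact if_pos (by rw [Int.cast_one]; exact ⟨1, (one_mul 1).symm⟩)
  · intro n hn
    have h2 : ¬ ((2 : ℕ) : ℤ) ∣ n := by
      rintro ⟨k, hk⟩
      push_cast at hk
      omega
    unfold l4 l8
    rw [un_of 2 n h2]
    exact ⟨rfl, rfl⟩
  · unfold l4
    have h := un_self 2 Nat.prime_two
    push_cast at h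
    rw [h]
    rfl
  · unfold l8
    have h := un_self 2 Nat.prime_two
    push_cast at h
    rw [h]
    rfl
  · unfold vl
    rw [pv0 2 (-1) (by norm_num), Nat.cast_zero]
  · unfold sg
    exact if_pos (by norm_num)
  · intro p hp
    unfold sg
    exact if_neg (not_lt.2 (Int.natCast_nonneg p))

end Pool.Agent.GT.D.H10
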